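import Pool.Agent.Lib.MP_7aba48_co_TK.Defs

/-!
# Counting neighbours over all layers
-/

namespace Pool.Agent.Lib.MP_7aba48_co_TK

open Finset Pool.Agent.Lib.MP_7aba48_co_G5

universe u

variable {V : Type u} {ι : Type} [DecidableEq V] [DecidableEq ι] {G : SimpleGraph V}

/-- The sum over the layers `i` of the number of neighbours of `(v, i)` in `A` is at most the
number of neighbours `y` of `v` which have a point in `A`; `w` is a neighbour without a point. -/
theorem sum_dg [Fintype V] [Fintype ι] {A : Finset (V × ι)} (hA : Valid A) {v w : V}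
    (hw : ∀ q ∈ A, q.1 ≠ w) (hvw : G.Adj v w) :
    ∑ i : ι, dg (layers G ι) (v, i) A + 1 ≤ dg G v univ := by
  have hdis : Set.PairwiseDisjoint (↑(univ : Finset ι))
      (fun i : ι => nb (layers G ι) (v, i) A) := by
    intro i _ j _ hij
    refine Finset.disjoint_left.2 fun p hp hq => hij ?_
    have h1 : i = p.2 := (mem_nb.1 hp).2.1
    have h2 : j = p.2 := (mem_nb.1 hq).2.1
    rw [h1, h2]
  have hsum : ∑ i : ι, dg (layers G ι) (v, i) A =
      (univ.biUnion fun i : ι => nb (layers G ι) (v, i) A).card := by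
    rw [Finset.card_biUnion (fun i hi j hj hij => hdis hi hj hij)]
    rfl
  have himg : ((univ.biUnion fun i : ι => nb (layers G ι) (v, i) A).image Prod.fst).card =
      (univ.biUnion fun i : ι => nb (layers G ι) (v, i) A).card := by
    refine Finset.card_image_of_injOn ?_
    intro p hp q hq hpq
    obtain ⟨i, _, hi⟩ := Finset.mem_biUnion.1 (Finset.mem_coe.1 hp)
    obtain ⟨j, _, hj⟩ := Finset.mem_biUnion.1 (Finset.mem_coe.1 hq)
    exact hA p (mem_nb.1 hi).1 q (mem_nb.1 hj).1 hpq
  have hsub : insert w ((univ.biUnion fun i : ι => nb (layers G ι) (v, i) A).image Prod.fst) ⊆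
      nb G v univ := by
    intro y hy
    rcases Finset.mem_insert.1 hy with rfl | hy
    · exact mem_nb.2 ⟨mem_univ _, hvw⟩
    · obtain ⟨p, hp, rfl⟩ := Finset.mem_image.1 hy
      obtain ⟨i, _, hi⟩ := Finset.mem_biUnion.1 hp
      exact mem_nb.2 ⟨mem_univ _, (mem_nb.1 hi).2.2⟩
  have hnot : w ∉ (univ.biUnion fun i : ι => nb (layers G ι) (v, i) A).image Prod.fst := by
    intro h
    obtain ⟨p, hp, hpw⟩ := Finset.mem_image.1 h
    obtain ⟨i, _, hi⟩ := Finset.mem_biUnion.1 hp
    exact hw p (mem_nb.1 hi).1 hpw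
  have h := Finset.card_le_card hsub
  rw [Finset.card_insert_of_notMem hnot, himg, ← hsum] at h
  exact h

end Pool.Agent.Lib.MP_7aba48_co_TK
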