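import Pool.Agent.Lib.MP_7aba48_co_TK.Defs

/-!
# Every odd cycle has two adjacent free points
-/

namespace Pool.Agent.Lib.MP_7aba48_co_TK

open Finset Pool.Agent.Lib.MP_7aba48_co_G5

universe u

variable {V : Type u} {ι : Type} [DecidableEq V] [DecidableEq ι] {G : SimpleGraph V}

omit [DecidableEq V] in
private theorem pair_two {U : Type u} {L : SimpleGraph U} {C : Finset U} {t : U}
    (h : dg L t C = 2) : ∃ a b, a ≠ b ∧ a ∈ C ∧ b ∈ C ∧ L.Adj t a ∧ L.Adj t b ∧
      ∀ w ∈ C, L.Adj t w → w = a ∨ w = b := by
  classical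
  unfold dg at h
  obtain ⟨a, b, hab, he⟩ := card_eq_two.1 h
  have ha : a ∈ nb L t C := by rw [he]; simp
  have hb : b ∈ nb L t C := by rw [he]; simp
  rw [mem_nb] at ha hb
  refine ⟨a, b, hab, ha.1, hb.1, ha.2, hb.2, fun w hw htw => ?_⟩
  have hw' : w ∈ nb L t C := mem_nb.2 ⟨hw, htw⟩
  rw [he] at hw'
  simpa using hw'

omit [DecidableEq V] in
/-- `a` is a neighbour of `t`; the other one. -/
private theorem pair_other {U : Type u} {L : SimpleGraph U} {C : Finset U} {t a : U}
    (h : dg L t C = 2) (ha : a ∈ C) (hta : L.Adj t a) :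
    ∃ b, b ≠ a ∧ b ∈ C ∧ L.Adj t b ∧ ∀ w ∈ C, L.Adj t w → w = a ∨ w = b := by
  obtain ⟨c, d, hcd, hc, hd, htc, htd, hall⟩ := pair_two h
  rcases hall a ha hta with rfl | rfl
  · exact ⟨d, hcd.symm, hd, htd, hall⟩
  · exact ⟨c, hcd, hc, htc, fun w hw htw => (hall w hw htw).symm⟩

/-- Every odd cycle has two adjacent free points. Proof: all points of `C` have exactly two
neighbours in `C`, and no others in `W` (`dg_eq_two`). If no point of `C` is marked take any edge.
If `m` is marked let `a, b` be its neighbours and `c ≠ m` the other neighbour of `a`; `c ≠ b` (no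
triangle), so `c` is free. Let `d ≠ a` be the other neighbour of `c`. `d ≠ m` since `c` is not
adjacent to `m`. If `d = b` then `{m, a, c, b}` is closed, hence equal to `C` (`eq_of_closed`), and
2-colourable (`m, c` against `a, b`; `a, b` are not adjacent, `m, c` are not adjacent), a
contradiction. So `d` is free. -/
theorem exists_pair (hTri : NoTri G) {W K C : Finset (V × ι)}
    (hW : ∀ q ∈ W, dg (layers G ι) q W ≤ 2) (hM : Marked G W K)
    (hC : C ∈ cyc (layers G ι) W) :
    ∃ a ∈ C, ∃ b ∈ C, (layers G ι).Adj a b ∧ Free G K a ∧ Free G K b := by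
  classical
  have hT := noTri (ι := ι) hTri
  have hodd : OddC (layers G ι) C := (mem_cyc.1 hC).2
  have h2 : ∀ v ∈ C, dg (layers G ι) v C = 2 := fun v hv => (dg_eq_two hW hC hv).1
  have hcl : ∀ v ∈ C, ∀ y ∈ W, (layers G ι).Adj v y → y ∈ C := fun v hv =>
    (dg_eq_two hW hC hv).2.2
  by_cases hK : ∃ m ∈ C, m ∈ K
  · obtain ⟨m, hm, hmK⟩ := hK
    have hfree : ∀ t ∈ C, t ≠ m → ¬ (layers G ι).Adj m t → Free G K t := by
      intro t ht htm hadj
      refine ⟨fun htK => htm (hM.2.1 C hC t ht m hm htK hmK), fun w hw htw => ?_⟩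
      have hwC : w ∈ C := hcl t ht w (hM.1 hw) htw
      have hwm : w = m := hM.2.1 C hC w hwC m hm hw hmK
      rw [hwm] at htw
      exact hadj htw.symm
    obtain ⟨a, b, hab, ha, hb, hma, hmb, hmall⟩ := pair_two (h2 m hm)
    obtain ⟨c, hcm, hc, hac, haall⟩ := pair_other (h2 a ha) hm hma.symm
    have hnab : ¬ (layers G ι).Adj a b := fun h => hT m a b hma h hmb
    have hcb : c ≠ b := by
      rintro rfl
      exact hnab hac
    have hca : c ≠ a := hac.ne'
    have hmc : ¬ (layers G ι).Adj m c := by
      intro h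
      rcases hmall c hc h with h' | h'
      · exact hca h'
      · exact hcb h'
    obtain ⟨d, hda, hd, hcd, hcall⟩ := pair_other (h2 c hc) ha hac.symm
    have hdm : d ≠ m := by
      rintro rfl
      exact hmc hcd.symm
    have hdb : d ≠ b := by
      rintro rfl
      obtain ⟨e, hem, he, hde, hdall⟩ := pair_other (h2 d hd) hm hmb.symm
      have hec : c = e := by
        rcases hdall c hc hcd.symm with h | h
        · exact absurd h hcm
        · exact h
      subst hec
      have hX : ({m, a, c, d} : Finset (V × ι)) = C := by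
        refine eq_of_closed hodd ?_ ⟨m, by simp⟩ ?_
        · intro w hw
          simp only [mem_insert, mem_singleton] at hw
          rcases hw with rfl | rfl | rfl | rfl <;> assumption
        · intro x hx y hy hxy
          simp only [mem_insert, mem_singleton] at hx ⊢
          rcases hx with rfl | rfl | rfl | rfl
          · rcases hmall y hy hxy with h | h <;> simp [h]
          · rcases haall y hy hxy with h | h <;> simp [h]
          · rcases hcall y hy hxy with h | h <;> simp [h]
          · rcases hdall y hy hxy with h | h <;> simp [h]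
      apply hodd.1
      refine ⟨fun x => decide (x = a ∨ x = d), fun x hx y hy hxy => ?_⟩
      have hcases : ∀ w ∈ C, w = m ∨ w = a ∨ w = c ∨ w = d := by
        intro w hw
        rw [← hX] at hw
        simpa using hw
      have hma' : m ≠ a := hma.ne
      have hmd' : m ≠ d := hmb.ne
      have hcd' : c ≠ d := hcd.ne
      have hf1 : decide (m = a ∨ m = d) = false := by simp [hma', hmd']
      have hf2 : decide (c = a ∨ c = d) = false := by simp [hca, hcd']
      have ht1 : decide (a = a ∨ a = d) = true := by simp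
      have ht2 : decide (d = a ∨ d = d) = true := by simp
      show decide (x = a ∨ x = d) ≠ decide (y = a ∨ y = d)
      rcases hcases x hx with rfl | rfl | rfl | rfl <;>
        rcases hcases y hy with rfl | rfl | rfl | rfl
      · exact absurd rfl hxy.ne
      · rw [hf1, ht1]; decide
      · exact absurd hxy hmc
      · rw [hf1, ht2]; decide
      · rw [hf1, ht1]; decide
      · exact absurd rfl hxy.ne
      · rw [hf2, ht1]; decide
      · exact absurd hxy hnab
      · exact absurd hxy.symm hmc
      · rw [hf2, ht1]; decide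
      · exact absurd rfl hxy.ne
      · rw [hf2, ht2]; decide
      · rw [hf1, ht2]; decide
      · exact absurd hxy.symm hnab
      · rw [hf2, ht2]; decide
      · exact absurd rfl hxy.ne
    refine ⟨c, hc, d, hd, hcd, hfree c hc hcm hmc, hfree d hd hdm ?_⟩
    intro h
    rcases hmall d hd h with h' | h'
    · exact hda h'
    · exact hdb h'
  · push Not at hK
    have hfree : ∀ t ∈ C, Free G K t := fun t ht =>
      ⟨hK t ht, fun w hw htw => hK w (hcl t ht w (hM.1 hw) htw) hw⟩
    obtain ⟨v, hv⟩ := hodd.nonempty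
    obtain ⟨a, b, -, ha, -, hva, -, -⟩ := pair_two (h2 v hv)
    exact ⟨v, hv, a, ha, hva, hfree v hv, hfree a ha⟩

end Pool.Agent.Lib.MP_7aba48_co_TK
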