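import Mathlib

/-!
# A choice lemma
-/

namespace Pool.Agent.Lib.MP_7aba48_co_TK

open Finset

/-- For each `i ∈ N` one of two things is to be chosen; if two chosen things are related then one
of them is related to a thing which is not chosen. Stronger form for the induction: the choice
at one place `j` can be prescribed. Proof: remove `j` from `N`. If `(j, b)` is related to some
`(l, c)` with `l ≠ j`, use the induction hypothesis with the prescribed choice `!c` at `l`;
otherwise use any choice for the rest; then put `σ j = b`. -/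
theorem select_aux {α : Type*} [DecidableEq α] (R : α → Bool → α → Bool → Prop)
    (hR : ∀ i b j c, R i b j c → R j c i b) (n : ℕ) :
    ∀ N : Finset α, N.card = n → ∀ j ∈ N, ∀ b : Bool, ∃ σ : α → Bool, σ j = b ∧
      ∀ i ∈ N, ∀ i' ∈ N, i ≠ i' → R i (σ i) i' (σ i') →
        (∃ l ∈ N, l ≠ i ∧ R i (σ i) l (!(σ l))) ∨ ∃ l ∈ N, l ≠ i' ∧ R i' (σ i') l (!(σ l)) := by
  induction n with
  | zero =>
    intro N hN j hj b
    rw [Finset.card_eq_zero] at hN
    subst hN
    exact absurd hj (Finset.notMem_empty j)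
  | succ n ih =>
    intro N hN j hj b
    have hcard : (N.erase j).card = n := by
      rw [Finset.card_erase_of_mem hj, hN]
      rfl
    -- extension of a choice on `N.erase j`
    have key : ∀ τ : α → Bool,
        (∀ i ∈ N.erase j, ∀ i' ∈ N.erase j, i ≠ i' → R i (τ i) i' (τ i') →
          (∃ l ∈ N.erase j, l ≠ i ∧ R i (τ i) l (!(τ l))) ∨
            ∃ l ∈ N.erase j, l ≠ i' ∧ R i' (τ i') l (!(τ l))) →
        ((∃ l ∈ N.erase j, R j b l (!(τ l))) ∨ ∀ l ∈ N.erase j, ∀ c, ¬ R j b l c) →
        ∃ σ : α → Bool, σ j = b ∧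
          ∀ i ∈ N, ∀ i' ∈ N, i ≠ i' → R i (σ i) i' (σ i') →
            (∃ l ∈ N, l ≠ i ∧ R i (σ i) l (!(σ l))) ∨
              ∃ l ∈ N, l ≠ i' ∧ R i' (σ i') l (!(σ l)) := by
      intro τ hτ hor
      have hj1 : Function.update τ j b j = b := Function.update_self j b τ
      have hne : ∀ l, l ≠ j → Function.update τ j b l = τ l := fun l hl =>
        Function.update_of_ne hl b τ
      refine ⟨Function.update τ j b, hj1, ?_⟩
      intro i hi i' hi' hii hR1
      by_cases hij : i = j
      · have hi'j : i' ≠ j := fun h => hii (hij.trans h.symm)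
        rw [hij, hj1, hne i' hi'j] at hR1
        rcases hor with ⟨l, hl, hl2⟩ | hno
        · left
          have hlj : l ≠ j := Finset.ne_of_mem_erase hl
          refine ⟨l, Finset.mem_of_mem_erase hl, fun h => hlj (h.trans hij), ?_⟩
          rw [hij, hj1, hne l hlj]
          exact hl2
        · exact absurd hR1 (hno i' (Finset.mem_erase.2 ⟨hi'j, hi'⟩) _)
      · by_cases hi'j : i' = j
        · rw [hi'j, hj1, hne i hij] at hR1
          rcases hor with ⟨l, hl, hl2⟩ | hno
          · right
            have hlj : l ≠ j := Finset.ne_of_mem_erase hl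
            refine ⟨l, Finset.mem_of_mem_erase hl, fun h => hlj (h.trans hi'j), ?_⟩
            rw [hi'j, hj1, hne l hlj]
            exact hl2
          · exact absurd (hR _ _ _ _ hR1) (hno i (Finset.mem_erase.2 ⟨hij, hi⟩) _)
        · rw [hne i hij, hne i' hi'j] at hR1 ⊢
          rcases hτ i (Finset.mem_erase.2 ⟨hij, hi⟩) i' (Finset.mem_erase.2 ⟨hi'j, hi'⟩) hii hR1
            with ⟨l, hl, hl1, hl2⟩ | ⟨l, hl, hl1, hl2⟩
          · left
            refine ⟨l, Finset.mem_of_mem_erase hl, hl1, ?_⟩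
            rw [hne l (Finset.ne_of_mem_erase hl)]
            exact hl2
          · right
            refine ⟨l, Finset.mem_of_mem_erase hl, hl1, ?_⟩
            rw [hne l (Finset.ne_of_mem_erase hl)]
            exact hl2
    by_cases hex : ∃ l ∈ N.erase j, ∃ c, R j b l c
    · obtain ⟨l, hl, c, hc⟩ := hex
      obtain ⟨τ, hτl, hτ⟩ := ih (N.erase j) hcard l hl (!c)
      refine key τ hτ (Or.inl ⟨l, hl, ?_⟩)
      rw [hτl, Bool.not_not]
      exact hc
    · have hno : ∀ l ∈ N.erase j, ∀ c, ¬ R j b l c := fun l hl c hc => hex ⟨l, hl, c, hc⟩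
      rcases (N.erase j).eq_empty_or_nonempty with h0 | ⟨j', hj'⟩
      · refine key (fun _ => true) ?_ (Or.inr hno)
        intro i hi
        rw [h0] at hi
        exact absurd hi (Finset.notMem_empty i)
      · obtain ⟨τ, -, hτ⟩ := ih (N.erase j) hcard j' hj' true
        exact key τ hτ (Or.inr hno)

theorem select {α : Type*} [DecidableEq α] (R : α → Bool → α → Bool → Prop)
    (hR : ∀ i b j c, R i b j c → R j c i b) (N : Finset α) : ∃ σ : α → Bool,
      ∀ i ∈ N, ∀ i' ∈ N, i ≠ i' → R i (σ i) i' (σ i') →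
        (∃ l ∈ N, l ≠ i ∧ R i (σ i) l (!(σ l))) ∨ ∃ l ∈ N, l ≠ i' ∧ R i' (σ i') l (!(σ l)) := by
  classical
  rcases N.eq_empty_or_nonempty with rfl | ⟨j, hj⟩
  · exact ⟨fun _ => true, by simp⟩
  · obtain ⟨σ, -, h⟩ := select_aux R hR N.card N rfl j hj true
    exact ⟨σ, h⟩

end Pool.Agent.Lib.MP_7aba48_co_TK
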