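import Pool.Agent.Lib.MP_7aba48_co_TK.Mark
import Pool.Agent.Lib.MP_7aba48_co_TK.Pair
import Pool.Agent.Lib.MP_7aba48_co_TK.Select
import Pool.Agent.Lib.MP_7aba48_co_TK.Count

/-!
# Triangle-free graphs of maximum degree at most `3k` are `(2k+1)`-colourable
-/

namespace Pool.Agent.Lib.MP_7aba48_co_TK

open Finset Pool.Agent.Lib.MP_7aba48_co_G5

universe u

variable {V : Type u} {ι : Type} [DecidableEq V] [DecidableEq ι] {G : SimpleGraph V}

/-- The chosen points. -/
private noncomputable def sel {W : Finset (V × ι)}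
    (z : {C // C ∈ cyc (layers G ι) W} → Bool → V × ι)
    (τ : {C // C ∈ cyc (layers G ι) W} → Bool) : Finset (V × ι) :=
  univ.image fun C => z C (τ C)

section

variable {W K : Finset (V × ι)} {z : {C // C ∈ cyc (layers G ι) W} → Bool → V × ι}

private lemma mem_sel {τ : {C // C ∈ cyc (layers G ι) W} → Bool} {t : V × ι} :
    t ∈ sel z τ ↔ ∃ C, z C (τ C) = t := by
  unfold sel
  rw [mem_image]
  exact ⟨fun ⟨C, _, h⟩ => ⟨C, h⟩, fun ⟨C, h⟩ => ⟨C, mem_univ _, h⟩⟩

private lemma sel_eq (hW : ∀ q ∈ W, dg (layers G ι) q W ≤ 2) (hz : ∀ C b, z C b ∈ C.1)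
    {τ : {C // C ∈ cyc (layers G ι) W} → Bool} {t : V × ι} (ht : t ∈ sel z τ)
    {C : {C // C ∈ cyc (layers G ι) W}} (htC : t ∈ C.1) : t = z C (τ C) := by
  obtain ⟨D, hD⟩ := mem_sel.1 ht
  have h1 : t ∈ D.1 := hD ▸ hz D (τ D)
  have h2 : D = C := Subtype.ext (cyc_disj hW D.2 C.2 h1 htC)
  rw [← h2, hD]

private lemma sel_tv (hW : ∀ q ∈ W, dg (layers G ι) q W ≤ 2) (hz : ∀ C b, z C b ∈ C.1)
    (τ : {C // C ∈ cyc (layers G ι) W} → Bool) : Tv G W (sel z τ) := by
  refine ⟨fun t ht => ?_, fun C hC a ha b hb haT hbT => ?_⟩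
  · obtain ⟨C, hC⟩ := mem_sel.1 ht
    exact ⟨C.1, C.2, hC ▸ hz C (τ C)⟩
  · rw [sel_eq hW hz haT (C := ⟨C, hC⟩) ha, sel_eq hW hz hbT (C := ⟨C, hC⟩) hb]

omit [DecidableEq V] [DecidableEq ι] in
private lemma sel_sub (hz : ∀ C b, z C b ∈ C.1) (C : {C // C ∈ cyc (layers G ι) W}) (b : Bool) :
    z C b ∈ W := (mem_cyc.1 C.2).1 (hz C b)

private lemma sel_dg (hW : ∀ q ∈ W, dg (layers G ι) q W ≤ 2) (hz : ∀ C b, z C b ∈ C.1)
    {τ : {C // C ∈ cyc (layers G ι) W} → Bool} {t : V × ι} (ht : t ∈ sel z τ) :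
    dg (layers G ι) t (W \ sel z τ) = 2 := by
  obtain ⟨C, hC⟩ := mem_sel.1 ht
  have htC : t ∈ C.1 := hC ▸ hz C (τ C)
  obtain ⟨_, h2, h3⟩ := dg_eq_two hW C.2 htC
  rw [← h2]
  unfold dg
  congr 1
  ext y
  rw [mem_nb, mem_nb, mem_sdiff]
  refine ⟨fun h => ⟨h.1.1, h.2⟩, fun h => ⟨⟨h.1, fun hy => ?_⟩, h.2⟩⟩
  have h4 : y ∈ C.1 := h3 y h.1 h.2
  have h5 := sel_eq hW hz hy h4
  have h6 := sel_eq hW hz ht htC
  exact h.2.ne (h6.trans h5.symm)

end

/-- A set with one point over at most every vertex, 2-colourable in each layer, such that the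
vertices without a point are independent. Proof: let `(W, K)` be final, for each odd cycle `C` let
`z C true, z C false` be adjacent free points of `C` (`exists_pair`), and let `σ` be the choice
given by `select` for adjacency in `G` of the vertices of the two points (between
different odd cycles). Put `T = {z C (σ C)}`, `A = W \ T`. `A` is 2-colourable, because every odd
cycle of `W` meets `T` (`exists_cyc`). Let `v, w` be adjacent vertices without a point in `A`. For
every layer `i` either `(v, i) ∈ T`, and then it has two neighbours in `A` (those on its odd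
cycle), or `(v, i) ∉ W` and it has at least three neighbours in `A` (`Final`). By `sum_dg` the sum
is at most `3 k - 1`, and `(v, i) ∈ T` for at most one `i` (`Valid W`). So `(v, i) ∈ T` for exactly
one `i` and all other numbers are equal to three. Likewise for `w`. By the choice of `σ` one of
them, say `(v, i)`, is adjacent (over `G`) to a point `y = (y₁, l) = z D (!σ D)` which was not
chosen, `D` different from the odd cycle `C` of `(v, i)`. `l ≠ i`, since otherwise `y ∈ C`. Let
`s = z D (σ D)` and `T' = insert y (T.erase s)`. It is again a set of free points, one on each odd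
cycle, and `(v, i) ∈ T'`. `(v, l) ∉ W`, so it has at least three neighbours in
`W \ T' = insert s (A.erase y)`; it is adjacent to `y` and not adjacent to `s` (no triangle), so it
has at least four in `A`, a contradiction. -/
theorem exists_part [Fintype V] [Fintype ι] (hTri : NoTri G)
    (hΔ : ∀ v, dg G v univ ≤ 3 * Fintype.card ι) :
    ∃ A : Finset (V × ι), Valid A ∧ (∀ p ∈ A, dg (layers G ι) p A ≤ 2) ∧
      Col2 (layers G ι) A ∧
      ∀ v w : V, (∀ q ∈ A, q.1 ≠ v) → (∀ q ∈ A, q.1 ≠ w) → ¬ G.Adj v w := by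
  classical
  obtain ⟨W, K, hO, hM, hF⟩ := exists_final (ι := ι) hTri
  have hW : ∀ q ∈ W, dg (layers G ι) q W ≤ 2 := hO.1.deg
  have hval : Valid W := hO.1.1
  have hex : ∀ C : {C // C ∈ cyc (layers G ι) W}, ∃ f : Bool → V × ι, (∀ b, f b ∈ C.1) ∧
      (∀ b, (layers G ι).Adj (f b) (f (!b))) ∧ ∀ b, Free G K (f b) := by
    intro C
    obtain ⟨a, ha, b, hb, hab, hfa, hfb⟩ := exists_pair hTri hW hM C.2
    refine ⟨fun c => if c then a else b, fun c => ?_, fun c => ?_, fun c => ?_⟩
    · cases c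
      · simpa using hb
      · simpa using ha
    · cases c
      · simpa using hab.symm
      · simpa using hab
    · cases c
      · simpa using hfb
      · simpa using hfa
  choose z hz hzadj hzF using hex
  obtain ⟨σ, hσ⟩ := select (fun i b j c => G.Adj (z i b).1 (z j c).1)
    (fun i b j c h => h.symm) (univ : Finset {C // C ∈ cyc (layers G ι) W})
  have hfin : ∀ τ : {C // C ∈ cyc (layers G ι) W} → Bool, ∀ p, p ∉ W →
      Vac (W \ sel z τ) p → 3 ≤ dg (layers G ι) p (W \ sel z τ) := by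
    intro τ p hp hv
    refine hF _ (sel_tv hW hz τ) (fun t ht => ?_) p hp hv
    obtain ⟨C, hC⟩ := mem_sel.1 ht
    exact hC ▸ hzF C (τ C)
  refine ⟨W \ sel z σ, fun p hp q hq h => hval p (mem_sdiff.1 hp).1 q (mem_sdiff.1 hq).1 h,
    fun p hp => le_trans (card_le_card fun y hy => ?_) (hW p (mem_sdiff.1 hp).1), ?_, ?_⟩
  · rw [mem_nb] at hy ⊢
    exact ⟨(mem_sdiff.1 hy.1).1, hy.2⟩
  · by_contra hcol
    obtain ⟨C, hC⟩ := exists_cyc hcol
    obtain ⟨h1, h2⟩ := mem_cyc.1 hC
    have h3 : C ∈ cyc (layers G ι) W := mem_cyc.2 ⟨h1.trans sdiff_subset, h2⟩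
    have h4 := h1 (hz ⟨C, h3⟩ (σ ⟨C, h3⟩))
    exact (mem_sdiff.1 h4).2 (mem_sel.2 ⟨⟨C, h3⟩, rfl⟩)
  -- a vertex with a neighbour such that both have no point
  have K1 : ∀ v w : V, (∀ q ∈ W \ sel z σ, q.1 ≠ v) → (∀ q ∈ W \ sel z σ, q.1 ≠ w) →
      G.Adj v w → ∃ C, (z C (σ C)).1 = v ∧
        ∀ j, j ≠ (z C (σ C)).2 → dg (layers G ι) (v, j) (W \ sel z σ) ≤ 3 := by
    intro v w hv hw hvw
    have hsub : Valid (W \ sel z σ) := fun p hp q hq h =>
      hval p (mem_sdiff.1 hp).1 q (mem_sdiff.1 hq).1 h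
    have hsum := (sum_dg hsub hw hvw).trans (hΔ v)
    have hin : ∀ i, (v, i) ∈ W → (v, i) ∈ sel z σ := by
      intro i hi
      by_contra hn
      exact hv (v, i) (mem_sdiff.2 ⟨hi, hn⟩) rfl
    have h3 : ∀ i, (v, i) ∉ W → 3 ≤ dg (layers G ι) (v, i) (W \ sel z σ) := fun i hi =>
      hfin σ (v, i) hi fun q hq => hv q hq
    have hconst : ∑ _i : ι, 3 = 3 * Fintype.card ι := by
      rw [sum_const, card_univ, smul_eq_mul, mul_comm]
    by_cases hC : ∃ C, (z C (σ C)).1 = v
    · obtain ⟨C, hC⟩ := hC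
      refine ⟨C, hC, fun j hj => ?_⟩
      by_contra h4
      push Not at h4
      have htW : (v, (z C (σ C)).2) ∈ W := by
        rw [← hC]
        exact sel_sub hz C (σ C)
      have h5 : ∀ i : ι, 3 + (if i = j then 1 else 0) ≤
          dg (layers G ι) (v, i) (W \ sel z σ) + (if i = (z C (σ C)).2 then 1 else 0) := by
        intro i
        by_cases hi : i = (z C (σ C)).2
        · have hij : i ≠ j := by
            rintro rfl
            exact hj hi
          rw [if_neg hij, if_pos hi, hi, sel_dg hW hz (hin _ htW)]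
        · rw [if_neg hi]
          have hiW : (v, i) ∉ W := by
            intro h
            exact hi (congrArg Prod.snd (hval _ h _ htW rfl))
          by_cases hij : i = j
          · rw [if_pos hij, hij]
            omega
          · rw [if_neg hij]
            have := h3 i hiW
            omega
      have h6 := sum_le_sum fun i (_ : i ∈ (univ : Finset ι)) => h5 i
      rw [sum_add_distrib, sum_add_distrib, hconst, sum_ite_eq', sum_ite_eq',
        if_pos (mem_univ _), if_pos (mem_univ _)] at h6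
      omega
    · exfalso
      push Not at hC
      have h5 : ∀ i ∈ (univ : Finset ι), 3 ≤ dg (layers G ι) (v, i) (W \ sel z σ) := by
        intro i _
        refine h3 i fun h => ?_
        obtain ⟨C, hC'⟩ := mem_sel.1 (hin i h)
        exact hC C (by rw [hC'])
      have h6 := sum_le_sum h5
      rw [hconst] at h6
      omega
  have K2 : ∀ v : V, (∀ q ∈ W \ sel z σ, q.1 ≠ v) → ∀ C, (z C (σ C)).1 = v →
      (∀ j, j ≠ (z C (σ C)).2 → dg (layers G ι) (v, j) (W \ sel z σ) ≤ 3) →
      ∀ D, D ≠ C → ¬ G.Adj v (z D (!(σ D))).1 := by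
    intro v hv C hC h3 D hDC hadj
    have hys : (layers G ι).Adj (z D (σ D)) (z D (!(σ D))) := hzadj D (σ D)
    have htW : z C (σ C) ∈ W := sel_sub hz C (σ C)
    have hyW : z D (!(σ D)) ∈ W := sel_sub hz D _
    have hlne : (z D (!(σ D))).2 ≠ (z C (σ C)).2 := by
      intro h
      have h1 : (layers G ι).Adj (z C (σ C)) (z D (!(σ D))) := ⟨h.symm, hC ▸ hadj⟩
      have h2 := (dg_eq_two hW C.2 (hz C (σ C))).2.2 _ hyW h1
      exact hDC (Subtype.ext (cyc_disj hW D.2 C.2 (hz D _) h2))
    obtain ⟨τ, hτ⟩ : ∃ τ : {C // C ∈ cyc (layers G ι) W} → Bool,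
        τ = Function.update σ D (!(σ D)) := ⟨_, rfl⟩
    have hτD : τ D = !(σ D) := by rw [hτ, Function.update_self]
    have hτn : ∀ E, E ≠ D → τ E = σ E := fun E hE => by rw [hτ, Function.update_of_ne hE]
    have hpW : (v, (z D (!(σ D))).2) ∉ W := by
      intro h
      have h1 := hval _ h _ htW hC.symm
      have h2 := congrArg Prod.snd h1
      exact hlne h2
    have hvac : Vac (W \ sel z τ) (v, (z D (!(σ D))).2) := by
      intro q hq hqv
      obtain ⟨hqW, hqT⟩ := mem_sdiff.1 hq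
      have h1 : q = z C (σ C) := hval q hqW _ htW (hqv.trans hC.symm)
      exact hqT (mem_sel.2 ⟨C, by rw [hτn C (Ne.symm hDC), h1]⟩)
    have h4 := hfin τ _ hpW hvac
    have h5 := h3 _ hlne
    have hyp : (layers G ι).Adj (v, (z D (!(σ D))).2) (z D (!(σ D))) := ⟨rfl, hadj⟩
    have hyA : z D (!(σ D)) ∈ nb (layers G ι) (v, (z D (!(σ D))).2) (W \ sel z σ) := by
      refine mem_nb.2 ⟨mem_sdiff.2 ⟨hyW, fun h => ?_⟩, hyp⟩
      have h1 := sel_eq hW hz h (hz D _)
      exact hys.ne h1.symm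
    have h6 : nb (layers G ι) (v, (z D (!(σ D))).2) (W \ sel z τ) ⊆
        (nb (layers G ι) (v, (z D (!(σ D))).2) (W \ sel z σ)).erase (z D (!(σ D))) := by
      intro q hq
      obtain ⟨hq1, hpq⟩ := mem_nb.1 hq
      obtain ⟨hqW, hqT⟩ := mem_sdiff.1 hq1
      refine mem_erase.2 ⟨fun h => ?_, mem_nb.2 ⟨mem_sdiff.2 ⟨hqW, fun h => ?_⟩, hpq⟩⟩
      · exact hqT (mem_sel.2 ⟨D, by rw [hτD, h]⟩)
      · obtain ⟨E, hE⟩ := mem_sel.1 h
        by_cases hED : E = D
        · subst hED
          rw [← hE] at hpq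
          exact noTri hTri _ _ _ hyp hys.symm hpq
        · exact hqT (mem_sel.2 ⟨E, by rw [hτn E hED, hE]⟩)
    have h7 := card_le_card h6
    rw [card_erase_of_mem hyA] at h7
    unfold dg at h4 h5
    omega
  intro v w hv hw hvw
  obtain ⟨C, hC, hC3⟩ := K1 v w hv hw hvw
  obtain ⟨D, hD, hD3⟩ := K1 w v hw hv hvw.symm
  have hCD : C ≠ D := by
    rintro rfl
    exact hvw.ne (hC.symm.trans hD)
  rcases hσ C (mem_univ _) D (mem_univ _) hCD (by
    show G.Adj (z C (σ C)).1 (z D (σ D)).1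
    rw [hC, hD]
    exact hvw) with ⟨E, _, hE, hadj⟩ | ⟨E, _, hE, hadj⟩
  · exact K2 v hv C hC hC3 E hE (hC ▸ hadj)
  · exact K2 w hw D hD hD3 E hE (hD ▸ hadj)

/-- A partition into an independent set (`f v = none`) and `k` sets (`f v = some i`) inducing
2-colourable graphs of maximum degree at most two. -/
theorem partition [Fintype V] (k : ℕ) (hTri : NoTri G) (hΔ : ∀ v, dg G v univ ≤ 3 * k) :
    ∃ f : V → Option (Fin k), (∀ v w, f v = none → f w = none → ¬ G.Adj v w) ∧
      (∃ c : V → Bool, ∀ v w i, f v = some i → f w = some i → G.Adj v w → c v ≠ c w) ∧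
      ∀ v i, f v = some i → dg G v (univ.filter fun w => f w = some i) ≤ 2 := by
  classical
  obtain ⟨A, hval, hdeg, ⟨c, hc⟩, hind⟩ := exists_part (ι := Fin k) hTri (by
    rw [Fintype.card_fin]
    exact hΔ)
  let f : V → Option (Fin k) := fun v =>
    if h : ∃ i : Fin k, (v, i) ∈ A then some h.choose else none
  have hnone : ∀ v, f v = none → ∀ q ∈ A, q.1 ≠ v := by
    rintro v hv q hq rfl
    have h : ∃ i : Fin k, (q.1, i) ∈ A := ⟨q.2, hq⟩
    simp [f, dif_pos h] at hv
  have hsome : ∀ v i, f v = some i → (v, i) ∈ A := by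
    intro v i hv
    by_cases h : ∃ i : Fin k, (v, i) ∈ A
    · simp only [f, dif_pos h, Option.some.injEq] at hv
      rw [← hv]
      exact h.choose_spec
    · simp [f, dif_neg h] at hv
  refine ⟨f, fun v w hv hw => hind v w (hnone v hv) (hnone w hw),
    ⟨fun v => (f v).elim false fun i => c (v, i), fun v w i hv hw hvw => ?_⟩, fun v i hv => ?_⟩
  · simp only [hv, hw, Option.elim]
    exact hc _ (hsome v i hv) _ (hsome w i hw) ⟨rfl, hvw⟩
  · refine le_trans ?_ (hdeg _ (hsome v i hv))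
    refine card_le_card_of_injOn (fun w => (w, i)) (fun w hw => ?_) fun w _ w' _ h => ?_
    · have hw' := mem_nb.1 (mem_coe.1 hw)
      exact mem_coe.2 (mem_nb.2 ⟨hsome w i (mem_filter.1 hw'.1).2, ⟨rfl, hw'.2⟩⟩)
    · exact congrArg Prod.fst h

omit [DecidableEq V] in
/-- Every triangle-free graph with maximum degree at most `3k` is `(2k+1)`-colourable. -/
theorem colorable [Fintype V] (k : ℕ) (hTri : NoTri G) (hΔ : ∀ v, dg G v univ ≤ 3 * k) :
    G.Colorable (2 * k + 1) := by
  classical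
  obtain ⟨f, h1, ⟨c, h2⟩, -⟩ := partition k hTri hΔ
  have hf : ∀ v w, G.Adj v w →
      (f v).map (fun i => (i, c v)) ≠ (f w).map (fun i => (i, c w)) := by
    intro v w hvw heq
    cases hv : f v with
    | none =>
      cases hw : f w with
      | none => exact h1 v w hv hw hvw
      | some j => simp [hv, hw] at heq
    | some i =>
      cases hw : f w with
      | none => simp [hv, hw] at heq
      | some j =>
        simp only [hv, hw, Option.map_some, Option.some.injEq, Prod.mk.injEq] at heq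
        exact h2 v w i hv (hw.trans (congrArg some heq.1.symm)) hvw heq.2
  have hcol := (SimpleGraph.Coloring.mk (fun v => (f v).map fun i => (i, c v))
    fun {v w} h => hf v w h).colorable
  have hcard : Fintype.card (Option (Fin k × Bool)) = 2 * k + 1 := by
    rw [Fintype.card_option, Fintype.card_prod, Fintype.card_fin, Fintype.card_bool]
    ring
  rwa [hcard] at hcol

end Pool.Agent.Lib.MP_7aba48_co_TK
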