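import Pool.Agent.Lib.MP_7aba48_co_G5.OddA

/-!
# Triangle-free graphs of maximum degree at most `3k` are `(2k+1)`-colourable: basic notions

A family of disjoint vertex sets `W i`, `i : ι`, of `G` is a set `W` of points of `V × ι`
containing at most one of the points `(v, i)` for each `v` (`Valid`). `layers G ι` is the disjoint
union of copies of `G`, one for each `i`. The functions `nb`, `dg`, `cyc` and `OddC` are those of
`MP_7aba48_co_G5`, applied to `layers G ι`.
-/

namespace Pool.Agent.Lib.MP_7aba48_co_TK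

open Finset Pool.Agent.Lib.MP_7aba48_co_G5

universe u

variable {V : Type u} {ι : Type} [DecidableEq V] [DecidableEq ι]

/-- Disjoint copies of `G`, one for each element of `ι`. -/
def layers (G : SimpleGraph V) (ι : Type) : SimpleGraph (V × ι) where
  Adj p q := p.2 = q.2 ∧ G.Adj p.1 q.1
  symm := ⟨fun _ _ h => ⟨h.1.symm, h.2.symm⟩⟩
  loopless := ⟨fun _ h => G.loopless.irrefl _ h.2⟩

/-- At most one point over each vertex. -/
def Valid (W : Finset (V × ι)) : Prop := ∀ p ∈ W, ∀ q ∈ W, p.1 = q.1 → p = q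

/-- No point over the vertex of `p`. -/
def Vac (W : Finset (V × ι)) (p : V × ι) : Prop := ∀ q ∈ W, q.1 ≠ p.1

/-- Four times the number of points minus the sum of the degrees. -/
noncomputable def pot (G : SimpleGraph V) (W : Finset (V × ι)) : ℤ :=
  4 * (W.card : ℤ) - ∑ p ∈ W, (dg (layers G ι) p W : ℤ)

/-- Valid sets with the largest value of `pot`. -/
def Best (G : SimpleGraph V) (W : Finset (V × ι)) : Prop :=
  Valid W ∧ ∀ W' : Finset (V × ι), Valid W' → pot G W' ≤ pot G W

/-- The number of points minus the number of odd cycles. -/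
noncomputable def pts (G : SimpleGraph V) (W : Finset (V × ι)) : ℤ :=
  (W.card : ℤ) - ((cyc (layers G ι) W).card : ℤ)

/-- Among the sets with the largest value of `pot` those with the largest value of `pts`. -/
def Opt (G : SimpleGraph V) (W : Finset (V × ι)) : Prop :=
  Best G W ∧ ∀ W' : Finset (V × ι), Best G W' → pts G W' ≤ pts G W

/-- `T` consists of points on odd cycles, at most one on each of them. -/
def Tv (G : SimpleGraph V) (W T : Finset (V × ι)) : Prop :=
  (∀ t ∈ T, ∃ C ∈ cyc (layers G ι) W, t ∈ C) ∧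
    ∀ C ∈ cyc (layers G ι) W, ∀ a ∈ C, ∀ b ∈ C, a ∈ T → b ∈ T → a = b

/-- `t` is not marked and not adjacent to a marked point. -/
def Free (G : SimpleGraph V) (K : Finset (V × ι)) (t : V × ι) : Prop :=
  t ∉ K ∧ ∀ w ∈ K, ¬ (layers G ι).Adj t w

/-- The points of `T` are removed and `p` is added: the points of `T` are adjacent to `p` or lie
over the vertex of `p`. -/
def Step (G : SimpleGraph V) (W T : Finset (V × ι)) (p : V × ι) : Prop :=
  Tv G W T ∧ p ∉ W ∧ (∀ t ∈ T, (layers G ι).Adj t p ∨ t.1 = p.1) ∧ Vac (W \ T) p ∧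
    dg (layers G ι) p (W \ T) = 2

/-- A broken odd cycle: `P` is closed in `W`, the point `x` outside `W` completes `P` to an odd
cycle, all neighbours of `x` in `W` are in `P` or marked, and either a point over the vertex of
`x` is marked, or there is no point of `W` over this vertex and `x` has a marked neighbour which
is not in `P`. -/
def Ret (G : SimpleGraph V) (W K P : Finset (V × ι)) (x : V × ι) : Prop :=
  P ⊆ W ∧ (∀ v ∈ P, ∀ y ∈ W, (layers G ι).Adj v y → y ∈ P) ∧ x ∉ W ∧
    OddC (layers G ι) (insert x P) ∧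
    (∀ v ∈ insert x P, dg (layers G ι) v (insert x P) = 2) ∧
    (∀ z ∈ W, (layers G ι).Adj x z → z ∈ P ∨ z ∈ K) ∧
    ((∃ c ∈ K, c.1 = x.1) ∨ (Vac W x ∧ ∃ z ∈ K, z ∉ P ∧ (layers G ι).Adj x z))

/-- The marked points `K` of `W`: at most one on each odd cycle, all of degree two in `W`, and
each of them is on an odd cycle or on a broken one. -/
def Marked (G : SimpleGraph V) (W K : Finset (V × ι)) : Prop :=
  K ⊆ W ∧ (∀ C ∈ cyc (layers G ι) W, ∀ a ∈ C, ∀ b ∈ C, a ∈ K → b ∈ K → a = b) ∧
    (∀ w ∈ K, dg (layers G ι) w W = 2) ∧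
    ∀ w ∈ K, (∃ C ∈ cyc (layers G ι) W, w ∈ C) ∨ ∃ P x, Ret G W K P x ∧ w ∈ P

/-- An optimal set such that, for every set `T` of free points, at most one on each odd cycle, all
points over vertices without a point in `W \ T` have at least three neighbours in `W \ T`, except
those of `W`. -/
def Final (G : SimpleGraph V) (W K : Finset (V × ι)) : Prop :=
  Opt G W ∧ Marked G W K ∧ ∀ T, Tv G W T → (∀ t ∈ T, Free G K t) →
    ∀ p, p ∉ W → Vac (W \ T) p → 3 ≤ dg (layers G ι) p (W \ T)

lemma adj_iff {G : SimpleGraph V} {p q : V × ι} :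
    (layers G ι).Adj p q ↔ p.2 = q.2 ∧ G.Adj p.1 q.1 := Iff.rfl

lemma noTri {G : SimpleGraph V} (h : NoTri G) : NoTri (layers G ι) :=
  fun _ _ _ h1 h2 h3 => h _ _ _ h1.2 h2.2 h3.2

end Pool.Agent.Lib.MP_7aba48_co_TK
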