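import Pool.Agent.Lib.MP_7aba48_co_TK.Sep

/-!
# The marking survives a step, and the process ends

Adapted from `MP_7aba48_co_TF.Token`.
-/

namespace Pool.Agent.Lib.MP_7aba48_co_TK

open Finset Pool.Agent.Lib.MP_7aba48_co_G5

universe u

variable {V : Type u} {ι : Type} [DecidableEq V] [DecidableEq ι] {G : SimpleGraph V}

private lemma two_nb {H : SimpleGraph (V × ι)} {C : Finset (V × ι)} {t : V × ι}
    (h : dg H t C = 2) : ∃ a ∈ C, H.Adj t a := by
  unfold dg at h
  obtain ⟨a, b, hab, he⟩ := card_eq_two.1 h
  have ha : a ∈ nb H t C := by rw [he]; simp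
  rw [mem_nb] at ha
  exact ⟨a, ha.1, ha.2⟩

private lemma mem_new {W T : Finset (V × ι)} {p v : V × ι} (hv : v ∈ W) (hvT : v ∉ T) :
    v ∈ insert p (W \ T) := mem_insert_of_mem (mem_sdiff.2 ⟨hv, hvT⟩)

private lemma ret_T {W T K P : Finset (V × ι)} {p x : V × ι} (hs : Step G W T p)
    (hr : Ret G W K P x) {v : V × ι} (hv : v ∈ P) : v ∉ T := by
  intro hvT
  obtain ⟨C, hC, hvC⟩ := hs.1.1 v hvT
  exact ret_disj hr hC hvC hv

/-- Broken odd cycles stay broken odd cycles. The last clause: a marked point over the vertex of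
`x` stays marked; if there is no point of `W` over this vertex, then there is none in `W'`, or
`p` is over it and marked. -/
theorem Step.ret (hTri : NoTri G) {W T K P : Finset (V × ι)} {p x : V × ι}
    (hW : ∀ q ∈ W, dg (layers G ι) q W ≤ 2) (hB : Best G (insert p (W \ T)))
    (hex : ∃ C ∈ cyc (layers G ι) (insert p (W \ T)), p ∈ C)
    (hs : Step G W T p) (hF : ∀ t ∈ T, Free G K t) (hKW : K ⊆ W)
    (hK2 : ∀ w ∈ K, dg (layers G ι) w W = 2) (hr : Ret G W K P x) :
    Ret G (insert p (W \ T)) (insert p K) P x := by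
  have hW' := hB.deg
  have hPT : ∀ w ∈ P, w ∉ T := fun w hw => ret_T hs hr hw
  have hsep : ∀ C ∈ cyc (layers G ι) (insert p (W \ T)), p ∈ C → Disjoint C P :=
    fun C hC hpC => Step.sep_ret hTri hW hB hs hF hKW hK2 hr hC hpC
  obtain ⟨C, hC, hpC⟩ := hex
  obtain ⟨hPW, hPc, hx, hodd, hdeg, hxK, hlast⟩ := hr
  have hPW' : P ⊆ insert p (W \ T) := fun w hw => mem_new (hPW hw) (hPT w hw)
  refine ⟨hPW', fun v hv y hy hvy => ?_, fun hxW' => ?_, hodd, hdeg, fun y hy hxy => ?_, ?_⟩
  · rcases mem_insert.1 hy with rfl | hy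
    · exfalso
      have hvC : v ∈ C := (dg_eq_two hW' hC hpC).2.2 v (hPW' hv) hvy.symm
      exact (disjoint_left.1 (hsep C hC hpC)) hvC hv
    · exact hPc v hv y (mem_sdiff.1 hy).1 hvy
  · rcases mem_insert.1 hxW' with rfl | hxW'
    · have hC' : insert x P ∈ cyc (layers G ι) (insert x (W \ T)) :=
        mem_cyc.2 ⟨insert_subset (mem_insert_self _ _) hPW', hodd⟩
      obtain ⟨a, ha, hxa⟩ := two_nb (hdeg x (mem_insert_self x P))
      have haP : a ∈ P := by
        rcases mem_insert.1 ha with h | h
        · exact absurd h hxa.ne'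
        · exact h
      exact (disjoint_left.1 (hsep _ hC' (mem_insert_self x P))) ha haP
    · exact hx (mem_sdiff.1 hxW').1
  · rcases mem_insert.1 hy with rfl | hy
    · exact Or.inr (mem_insert_self _ _)
    · rcases hxK y (mem_sdiff.1 hy).1 hxy with h6 | h6
      · exact Or.inl h6
      · exact Or.inr (mem_insert_of_mem h6)
  · rcases hlast with ⟨c, hc, hcx⟩ | ⟨hv, z, hz, hzP, hxz⟩
    · exact Or.inl ⟨c, mem_insert_of_mem hc, hcx⟩
    · by_cases hpx : p.1 = x.1
      · exact Or.inl ⟨p, mem_insert_self _ _, hpx⟩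
      · refine Or.inr ⟨fun q hq => ?_, z, mem_insert_of_mem hz, hzP, hxz⟩
        rcases mem_insert.1 hq with rfl | hq
        · exact hpx
        · exact hv q (mem_sdiff.1 hq).1

/-- The marking survives a step. If the marked point `w` is on an odd cycle `C` of `W` which
contains a point `t` of `T`, then `(C.erase t, t)` is a broken odd cycle for `W'`: if `t` is
over the vertex of `p` then `p` is marked over it, otherwise `t` is adjacent to `p`, which is
marked and not in `C.erase t`, and there is no point of `W'` over the vertex of `t`. -/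
theorem Step.marked (hTri : NoTri G) {W T K : Finset (V × ι)} {p : V × ι}
    (h : Opt G W) (hs : Step G W T p) (hF : ∀ t ∈ T, Free G K t) (hM : Marked G W K) :
    Marked G (insert p (W \ T)) (insert p K) := by
  obtain ⟨hO', hex⟩ := Step.opt h hs
  have hB' := hO'.1
  have hW := h.1.deg
  have hW' := hB'.deg
  have hpW : p ∉ W := hs.2.1
  obtain ⟨hKW, hM2, hK2, hM3⟩ := hM
  have hKT : ∀ w ∈ K, w ∉ T := fun w hw hwT => (hF w hwT).1 hw
  have hsep : ∀ C ∈ cyc (layers G ι) (insert p (W \ T)), p ∈ C → ∀ w ∈ C, w ∉ K := by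
    intro C hC hpC w hw hwK
    rcases hM3 w hwK with ⟨C', hC', hwC'⟩ | ⟨P, x, hr, hwP⟩
    · exact (disjoint_left.1 (Step.sep_cyc hTri hW hW' hs hC hpC hC')) hw hwC'
    · exact (disjoint_left.1 (Step.sep_ret hTri hW hB' hs hF hKW hK2 hr hC hpC)) hw hwP
  refine ⟨?_, ?_, ?_, ?_⟩
  · intro w hw
    rcases mem_insert.1 hw with rfl | h1
    · exact mem_insert_self _ _
    · exact mem_new (hKW h1) (hKT w h1)
  · intro C hC a ha b hb haK hbK
    by_cases hpC : p ∈ C
    · have key : ∀ w ∈ C, w ∈ insert p K → w = p := by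
        intro w hw hwKp
        rcases mem_insert.1 hwKp with h1 | h1
        · exact h1
        · exact absurd h1 (hsep C hC hpC w hw)
      rw [key a ha haK, key b hb hbK]
    · obtain ⟨hCW', hCo⟩ := mem_cyc.1 hC
      have hCW : C ⊆ W := by
        intro w hw
        rcases mem_insert.1 (hCW' hw) with rfl | h1
        · exact absurd hw hpC
        · exact (mem_sdiff.1 h1).1
      have key : ∀ w ∈ C, w ∈ insert p K → w ∈ K := by
        intro w hw hwKp
        rcases mem_insert.1 hwKp with rfl | h1
        · exact absurd hw hpC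
        · exact h1
      exact hM2 C (mem_cyc.2 ⟨hCW, hCo⟩) a ha b hb (key a ha haK) (key b hb hbK)
  · intro w hw
    rcases mem_insert.1 hw with rfl | h1
    · obtain ⟨D, hD, hwD⟩ := hex
      exact (dg_eq_two hW' hD hwD).2.1
    · exact dg_keep hW hW' hF hKW hK2 h1
  · intro w hw
    rcases mem_insert.1 hw with rfl | hwK
    · exact Or.inl hex
    · rcases hM3 w hwK with ⟨C, hC, hwC⟩ | ⟨P, x, hr, hwP⟩
      · obtain ⟨hCW, hCo⟩ := mem_cyc.1 hC
        by_cases hT : ∃ t ∈ C, t ∈ T
        · obtain ⟨t, htC, htT⟩ := hT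
          have hTu : ∀ y ∈ C.erase t, y ∉ T := by
            intro y hy hyT
            obtain ⟨hyt, hyC⟩ := mem_erase.1 hy
            exact hyt (hs.1.2 C hC y hyC t htC hyT htT)
          have hPW' : C.erase t ⊆ insert p (W \ T) := fun y hy =>
            mem_new (hCW (mem_of_mem_erase hy)) (hTu y hy)
          refine Or.inr ⟨C.erase t, t, ⟨hPW', fun v hv y hy hvy => ?_, fun htW' => ?_, ?_, ?_,
            fun y hy hty => ?_, ?_⟩, mem_erase.2 ⟨?_, hwC⟩⟩
          · rcases mem_insert.1 hy with rfl | hy
            · exfalso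
              obtain ⟨D, hD, hyD⟩ := hex
              have hvD : v ∈ D := (dg_eq_two hW' hD hyD).2.2 v (hPW' hv) hvy.symm
              exact (disjoint_left.1 (Step.sep_cyc hTri hW hW' hs hD hyD hC)) hvD
                (mem_of_mem_erase hv)
            · refine mem_erase.2 ⟨?_,
                (dg_eq_two hW hC (mem_of_mem_erase hv)).2.2 y (mem_sdiff.1 hy).1 hvy⟩
              rintro rfl
              exact (mem_sdiff.1 hy).2 htT
          · rcases mem_insert.1 htW' with rfl | h1
            · exact hpW (hCW htC)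
            · exact (mem_sdiff.1 h1).2 htT
          · rw [insert_erase htC]
            exact hCo
          · rw [insert_erase htC]
            exact fun v hv => (dg_eq_two hW hC hv).1
          · rcases mem_insert.1 hy with rfl | h1
            · exact Or.inr (mem_insert_self _ _)
            · exact Or.inl (mem_erase.2
                ⟨hty.ne', (dg_eq_two hW hC htC).2.2 y (mem_sdiff.1 h1).1 hty⟩)
          · rcases hs.2.2.1 t htT with htp | htp
            · refine Or.inr ⟨fun q hq hqt => ?_, p, mem_insert_self _ _,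
                fun h1 => hpW (hCW (mem_of_mem_erase h1)), htp⟩
              rcases mem_insert.1 hq with rfl | hq
              · have h2 := htp.2
                rw [hqt] at h2
                exact G.loopless.irrefl _ h2
              · have h1 := h.1.1 q (mem_sdiff.1 hq).1 t (hCW htC) hqt
                rw [h1] at hq
                exact (mem_sdiff.1 hq).2 htT
            · exact Or.inl ⟨p, mem_insert_self _ _, htp.symm⟩
          · rintro rfl
            exact hKT w hwK htT
        · push Not at hT
          exact Or.inl ⟨C, mem_cyc.2 ⟨fun y hy => mem_new (hCW hy) (hT y hy), hCo⟩, hwC⟩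
      · exact Or.inr ⟨P, x, Step.ret hTri hW hB' hex hs hF hKW hK2 hr, hwP⟩

/-- The process ends: induction on the number of unmarked points. If the last clause of `Final`
fails for `T` and `p`, so `dg p (W \ T) ≤ 2` (and `= 2` by `Best.sdiff` and `Best.two_le`), let
`T'` be the set of the points of `T` adjacent to `p` or over the vertex of `p`. Then
`Step G W T' p`, because the neighbours of `p` in `W \ T'` are in `W \ T`. -/
theorem exists_final [Fintype V] [Fintype ι] (hTri : NoTri G) :
    ∃ W K : Finset (V × ι), Final G W K := by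
  have main : ∀ (n : ℕ) (W K : Finset (V × ι)), Fintype.card (V × ι) - K.card ≤ n →
      Opt G W → Marked G W K → ∃ W' K' : Finset (V × ι), Final G W' K' := by
    intro n
    induction n with
    | zero =>
      intro W K hn hW hM
      refine ⟨W, K, hW, hM, fun T hT hF p hp hv => ?_⟩
      exfalso
      have hpK : p ∉ K := fun h => hp (hM.1 h)
      have h1 : K.card < Fintype.card (V × ι) := by
        rw [← card_univ]
        exact card_lt_card ⟨subset_univ K, fun h => hpK (h (mem_univ p))⟩
      omega
    | succ n ih =>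
      intro W K hn hW hM
      by_cases h : ∃ T, Tv G W T ∧ (∀ t ∈ T, Free G K t) ∧ ∃ p, p ∉ W ∧ Vac (W \ T) p ∧
          dg (layers G ι) p (W \ T) < 3
      · classical
        obtain ⟨T, hT, hF, p, hp, hv, hd⟩ := h
        have h2 : 2 ≤ dg (layers G ι) p (W \ T) :=
          (hW.1.sdiff hT).two_le (fun h => hp (mem_sdiff.1 h).1) hv
        set T' : Finset (V × ι) := T.filter (fun t => (layers G ι).Adj t p ∨ t.1 = p.1)
          with hT'
        have hTT : T' ⊆ T := filter_subset _ _
        have hnb : nb (layers G ι) p (W \ T') = nb (layers G ι) p (W \ T) := by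
          ext y
          rw [mem_nb, mem_nb, mem_sdiff, mem_sdiff]
          constructor
          · rintro ⟨⟨hy, hyT'⟩, hpy⟩
            refine ⟨⟨hy, fun hyT => hyT' ?_⟩, hpy⟩
            rw [hT', mem_filter]
            exact ⟨hyT, Or.inl hpy.symm⟩
          · rintro ⟨⟨hy, hyT⟩, hpy⟩
            exact ⟨⟨hy, fun hyT' => hyT (hTT hyT')⟩, hpy⟩
        have hs : Step G W T' p := by
          refine ⟨⟨fun t ht => hT.1 t (hTT ht),
            fun C hC a ha b hb haT hbT => hT.2 C hC a ha b hb (hTT haT) (hTT hbT)⟩, hp,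
            fun t ht => ?_, fun q hq hqp => ?_, ?_⟩
          · rw [hT', mem_filter] at ht
            exact ht.2
          · obtain ⟨hqW, hqT'⟩ := mem_sdiff.1 hq
            by_cases hqT : q ∈ T
            · apply hqT'
              rw [hT', mem_filter]
              exact ⟨hqT, Or.inr hqp⟩
            · exact hv q (mem_sdiff.2 ⟨hqW, hqT⟩) hqp
          · unfold dg
            rw [hnb]
            unfold dg at h2 hd
            omega
        have hF' : ∀ t ∈ T', Free G K t := fun t ht => hF t (hTT ht)
        have hpK : p ∉ K := fun h => hp (hM.1 h)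
        have h1 : (insert p K).card = K.card + 1 := card_insert_of_notMem hpK
        have h3 : (insert p K).card ≤ Fintype.card (V × ι) := card_le_univ _
        exact ih _ (insert p K) (by omega) (Step.opt hW hs).1 (Step.marked hTri hW hs hF' hM)
      · push Not at h
        exact ⟨W, K, hW, hM, h⟩
  obtain ⟨W, hW⟩ := exists_opt (ι := ι) G
  refine main _ W ∅ le_rfl hW ⟨empty_subset _, ?_, ?_, ?_⟩
  · intro C _ a _ b _ ha
    exact absurd ha (notMem_empty a)
  · intro w hw
    exact absurd hw (notMem_empty w)
  · intro w hw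
    exact absurd hw (notMem_empty w)

end Pool.Agent.Lib.MP_7aba48_co_TK
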