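import Pool.Agent.Lib.MP_7aba48_co_TK.Defs

/-!
# The potential
-/

namespace Pool.Agent.Lib.MP_7aba48_co_TK

open Finset Pool.Agent.Lib.MP_7aba48_co_G5

universe u

variable {V : Type u} {ι : Type} [DecidableEq V] [DecidableEq ι] {G : SimpleGraph V}

private theorem dgu {α : Type u} [DecidableEq α] {H : SimpleGraph α} {v : α} {A B : Finset α}
    (h : Disjoint A B) : dg H v (A ∪ B) = dg H v A + dg H v B := by
  classical
  unfold dg
  have h1 : nb H v (A ∪ B) = nb H v A ∪ nb H v B := by
    ext w
    simp only [mem_nb, Finset.mem_union]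
    tauto
  rw [h1, Finset.card_union_of_disjoint]
  rw [Finset.disjoint_left] at h ⊢
  intro w hw hw'
  exact h (mem_nb.1 hw).1 (mem_nb.1 hw').1

open Classical in
private theorem dgs {α : Type u} [DecidableEq α] {H : SimpleGraph α} (v x : α) :
    dg H v {x} = if H.Adj v x then 1 else 0 := by
  unfold dg
  by_cases h : H.Adj v x
  · rw [if_pos h]
    have h1 : nb H v {x} = {x} := by
      ext w
      simp only [mem_nb, Finset.mem_singleton]
      constructor
      · exact fun h' => h'.1
      · rintro rfl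
        exact ⟨rfl, h⟩
    rw [h1, Finset.card_singleton]
  · rw [if_neg h, Finset.card_eq_zero]
    ext w
    simp only [mem_nb, Finset.mem_singleton, Finset.notMem_empty, iff_false, not_and]
    rintro rfl
    exact h

open Classical in
private theorem dgi {α : Type u} [DecidableEq α] {H : SimpleGraph α} {v x : α} {S : Finset α}
    (hx : x ∉ S) : dg H v (insert x S) = dg H v S + if H.Adj v x then 1 else 0 := by
  have h1 : insert x S = S ∪ {x} := by
    ext w
    simp only [Finset.mem_insert, Finset.mem_union, Finset.mem_singleton]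
    tauto
  rw [h1, dgu (Finset.disjoint_singleton_right.2 hx), dgs]

private theorem dgi_self {α : Type u} [DecidableEq α] {H : SimpleGraph α} {x : α}
    {S : Finset α} (hx : x ∉ S) : dg H x (insert x S) = dg H x S := by
  classical
  rw [dgi hx, if_neg (H.loopless.irrefl x), add_zero]

private theorem dge_self {α : Type u} [DecidableEq α] {H : SimpleGraph α} (x : α)
    (S : Finset α) : dg H x (S.erase x) = dg H x S := by
  by_cases hx : x ∈ S
  · conv_rhs => rw [← Finset.insert_erase hx]
    rw [dgi_self (Finset.notMem_erase x S)]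
  · rw [Finset.erase_eq_of_notMem hx]

open Classical in
private theorem sumadj {α : Type u} [DecidableEq α] {H : SimpleGraph α} (x : α)
    (S : Finset α) : ∑ v ∈ S, (if H.Adj v x then 1 else 0) = dg H x S := by
  rw [← Finset.card_filter]
  unfold dg
  congr 1
  ext w
  simp only [mem_nb, Finset.mem_filter, H.adj_comm]

private theorem innerins {α : Type u} [DecidableEq α] {H : SimpleGraph α} {x : α}
    {S : Finset α} (hx : x ∉ S) :
    ∑ v ∈ insert x S, dg H v (insert x S) = ∑ v ∈ S, dg H v S + 2 * dg H x S := by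
  classical
  rw [Finset.sum_insert hx, dgi_self hx]
  have h1 : ∑ v ∈ S, dg H v (insert x S) = ∑ v ∈ S, dg H v S + dg H x S := by
    rw [← sumadj x S, ← Finset.sum_add_distrib]
    exact Finset.sum_congr rfl fun v _ => dgi hx
  rw [h1]
  ring

private theorem pot_ins' {W : Finset (V × ι)} {p : V × ι} (hp : p ∉ W) :
    pot G (insert p W) = pot G W + 4 - 2 * (dg (layers G ι) p W : ℤ) := by
  have h1 := innerins (H := layers G ι) hp
  have h2 : ∑ q ∈ insert p W, (dg (layers G ι) q (insert p W) : ℤ) =
      ∑ q ∈ W, (dg (layers G ι) q W : ℤ) + 2 * (dg (layers G ι) p W : ℤ) := by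
    exact_mod_cast h1
  unfold pot
  rw [h2, Finset.card_insert_of_notMem hp]
  push_cast
  ring

theorem pot_erase {W : Finset (V × ι)} {p : V × ι} (hp : p ∈ W) :
    pot G (W.erase p) = pot G W - 4 + 2 * (dg (layers G ι) p W : ℤ) := by
  have h1 := pot_ins' (G := G) (Finset.notMem_erase p W)
  rw [Finset.insert_erase hp, dge_self] at h1
  omega

theorem pot_insert {W : Finset (V × ι)} {p : V × ι} (hp : p ∉ W) :
    pot G (insert p W) = pot G W + 4 - 2 * (dg (layers G ι) p W : ℤ) := by
  exact pot_ins' hp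

/-- Removing independent points of degree two does not change the potential (induction on `R`;
the degree of `r` in `W \ R'` is still two if `R'` contains no neighbour of `r`). -/
theorem pot_sdiff {W R : Finset (V × ι)} (hR : R ⊆ W)
    (hind : ∀ r ∈ R, ∀ s ∈ R, ¬ (layers G ι).Adj r s)
    (h2 : ∀ r ∈ R, dg (layers G ι) r W = 2) : pot G (W \ R) = pot G W := by
  induction R using Finset.induction_on with
  | empty => rw [Finset.sdiff_empty]
  | insert r R hr ih =>
    have hR' : R ⊆ W := fun x hx => hR (Finset.mem_insert_of_mem hx)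
    have h' := ih hR' (fun a ha b hb => hind a (Finset.mem_insert_of_mem ha) b
      (Finset.mem_insert_of_mem hb)) (fun a ha => h2 a (Finset.mem_insert_of_mem ha))
    have hrW : r ∈ W := hR (Finset.mem_insert_self _ _)
    have hrR : r ∈ W \ R := Finset.mem_sdiff.2 ⟨hrW, hr⟩
    have h3 : dg (layers G ι) r (W \ R) = 2 := by
      have h4 : dg (layers G ι) r W =
          dg (layers G ι) r (W \ R) + dg (layers G ι) r R := by
        rw [← dgu Finset.sdiff_disjoint, Finset.sdiff_union_of_subset hR']
      have h5 : dg (layers G ι) r R = 0 := by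
        unfold dg
        rw [Finset.card_eq_zero, Finset.eq_empty_iff_forall_notMem]
        intro w hw
        rw [mem_nb] at hw
        exact hind r (Finset.mem_insert_self _ _) w (Finset.mem_insert_of_mem hw.1) hw.2
      have h6 := h2 r (Finset.mem_insert_self _ _)
      omega
    have h7 : W \ insert r R = (W \ R).erase r := by
      ext w
      simp only [Finset.mem_sdiff, Finset.mem_insert, Finset.mem_erase, not_or]
      tauto
    rw [h7, pot_erase hrR, h3, h']
    push_cast
    ring

/-- Two maximisations over a finite set of sets (`Valid ∅`). -/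
theorem exists_opt [Fintype V] [Fintype ι] (G : SimpleGraph V) :
    ∃ W : Finset (V × ι), Opt G W := by
  classical
  have h0 : Valid (∅ : Finset (V × ι)) := fun p hp => absurd hp (Finset.notMem_empty p)
  obtain ⟨A₀, hA₀, hmax₀⟩ := exists_max_image
    (univ.filter fun A : Finset (V × ι) => Valid A) (fun A => pot G A)
    ⟨∅, mem_filter.2 ⟨mem_univ _, h0⟩⟩
  have hB₀ : Best G A₀ := ⟨(mem_filter.1 hA₀).2, fun A' hA' =>
    hmax₀ A' (mem_filter.2 ⟨mem_univ _, hA'⟩)⟩
  obtain ⟨A₁, hA₁, hmax₁⟩ := exists_max_image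
    (univ.filter fun A : Finset (V × ι) => Best G A) (fun A => pts G A)
    ⟨A₀, mem_filter.2 ⟨mem_univ _, hB₀⟩⟩
  exact ⟨A₁, (mem_filter.1 hA₁).2, fun A' hA' =>
    hmax₁ A' (mem_filter.2 ⟨mem_univ _, hA'⟩)⟩

theorem Best.deg {W : Finset (V × ι)} (h : Best G W) :
    ∀ p ∈ W, dg (layers G ι) p W ≤ 2 := by
  intro p hp
  have hv : Valid (W.erase p) := fun a ha b hb hab =>
    h.1 a (Finset.mem_of_mem_erase ha) b (Finset.mem_of_mem_erase hb) hab
  have h1 := h.2 _ hv
  rw [pot_erase hp] at h1
  omega

private theorem valid_ins {W : Finset (V × ι)} {p : V × ι} (hW : Valid W) (hv : Vac W p) :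
    Valid (insert p W) := by
  intro a ha b hb hab
  rcases Finset.mem_insert.1 ha with ha' | ha'
  · rcases Finset.mem_insert.1 hb with hb' | hb'
    · rw [ha', hb']
    · exact absurd (hab.symm.trans (congrArg Prod.fst ha')) (hv b hb')
  · rcases Finset.mem_insert.1 hb with hb' | hb'
    · exact absurd (hab.trans (congrArg Prod.fst hb')) (hv a ha')
    · exact hW a ha' b hb' hab

theorem Best.two_le {W : Finset (V × ι)} (h : Best G W) {p : V × ι} (hp : p ∉ W)
    (hv : Vac W p) : 2 ≤ dg (layers G ι) p W := by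
  have h1 := h.2 _ (valid_ins h.1 hv)
  rw [pot_insert hp] at h1
  omega

/-- Not all neighbours of a point outside have degree two. Proof: `R` = neighbours of `x` in `W`,
`Q` = points of `W` over the vertex of `x` (at most one, in another layer). `R ∪ Q` is
independent, so `pot (W \ (R ∪ Q)) = pot W`; adding `x`, which has no neighbour left, gives a
valid set with potential `pot W + 4`. -/
theorem Best.no_exchange (hT : NoTri G) {W : Finset (V × ι)} (h : Best G W) {x : V × ι}
    (hx : x ∉ W) (h1 : ∀ r ∈ W, (layers G ι).Adj x r → dg (layers G ι) r W = 2)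
    (h2 : ∀ q ∈ W, q.1 = x.1 → dg (layers G ι) q W = 2) : False := by
  classical
  obtain ⟨S, hS⟩ : ∃ S : Finset (V × ι),
      S = W.filter fun q => (layers G ι).Adj x q ∨ q.1 = x.1 := ⟨_, rfl⟩
  have hmem : ∀ q, q ∈ S ↔ q ∈ W ∧ ((layers G ι).Adj x q ∨ q.1 = x.1) := by
    intro q
    rw [hS, Finset.mem_filter]
  have hind : ∀ r ∈ S, ∀ s ∈ S, ¬ (layers G ι).Adj r s := by
    intro r hr s hs hrs
    obtain ⟨hrW, hr'⟩ := (hmem r).1 hr
    obtain ⟨hsW, hs'⟩ := (hmem s).1 hs
    have hne : ∀ q ∈ W, q.1 = x.1 → q.2 = x.2 → False := by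
      intro q hq h3 h4
      have h5 : q = x := Prod.ext h3 h4
      exact hx (h5 ▸ hq)
    rcases hr' with hr' | hr'
    · rcases hs' with hs' | hs'
      · exact noTri hT x r s hr' hrs hs'
      · exact hne s hsW hs' (hrs.1.symm.trans hr'.1.symm)
    · rcases hs' with hs' | hs'
      · exact hne r hrW hr' (hrs.1.trans hs'.1.symm)
      · have h3 : G.Adj r.1 s.1 := hrs.2
        rw [hr', hs'] at h3
        exact G.loopless.irrefl _ h3
  have hdeg : ∀ r ∈ S, dg (layers G ι) r W = 2 := by
    intro r hr
    obtain ⟨hrW, hr' | hr'⟩ := (hmem r).1 hr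
    · exact h1 r hrW hr'
    · exact h2 r hrW hr'
  have hsub : S ⊆ W := fun q hq => ((hmem q).1 hq).1
  have h3 := pot_sdiff hsub hind hdeg
  have h4 : x ∉ W \ S := fun h5 => hx (Finset.mem_sdiff.1 h5).1
  have h5 : dg (layers G ι) x (W \ S) = 0 := by
    unfold dg
    rw [Finset.card_eq_zero, Finset.eq_empty_iff_forall_notMem]
    intro w hw
    obtain ⟨hw1, hw2⟩ := mem_nb.1 hw
    obtain ⟨hw3, hw4⟩ := Finset.mem_sdiff.1 hw1
    exact hw4 ((hmem w).2 ⟨hw3, Or.inl hw2⟩)
  have h6 : Vac (W \ S) x := by
    intro q hq hqx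
    obtain ⟨hq1, hq2⟩ := Finset.mem_sdiff.1 hq
    exact hq2 ((hmem q).2 ⟨hq1, Or.inr hqx⟩)
  have h7 : Valid (W \ S) := fun a ha b hb hab =>
    h.1 a (Finset.mem_sdiff.1 ha).1 b (Finset.mem_sdiff.1 hb).1 hab
  have h8 := h.2 _ (valid_ins h7 h6)
  rw [pot_insert h4, h3, h5] at h8
  omega

end Pool.Agent.Lib.MP_7aba48_co_TK
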