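import Pool.Agent.Lib.MP_7aba48_co_TK.Step

/-!
# The new odd cycle is disjoint from the old ones and from the broken ones

Adapted from `MP_7aba48_co_TF.Token`.
-/

namespace Pool.Agent.Lib.MP_7aba48_co_TK

open Finset Pool.Agent.Lib.MP_7aba48_co_G5

universe u

variable {V : Type u} {ι : Type} [DecidableEq V] [DecidableEq ι] {G : SimpleGraph V}

/-- If two odd cycles differ in one vertex only, neighbours of the one are neighbours of the
other. -/
private lemma adj_of_erase {A : Type*} [DecidableEq A] {H : SimpleGraph A} {C C' : Finset A}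
    {u t a : A} (he : C.erase u = C'.erase t)
    (hC : dg H a C = 2) (hC' : dg H a C' = 2) (ht : t ∈ C') (hat : H.Adj a t) : H.Adj a u := by
  by_contra hau
  have h1 : nb H a C = (nb H a C').erase t := by
    ext y
    rw [mem_nb, mem_erase, mem_nb]
    constructor
    · rintro ⟨hy, hay⟩
      have hyu : y ≠ u := by
        rintro rfl
        exact hau hay
      have h2 : y ∈ C.erase u := mem_erase.2 ⟨hyu, hy⟩
      rw [he, mem_erase] at h2
      exact ⟨h2.1, h2.2, hay⟩
    · rintro ⟨hyt, hy, hay⟩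
      have h2 : y ∈ C'.erase t := mem_erase.2 ⟨hyt, hy⟩
      rw [← he, mem_erase] at h2
      exact ⟨h2.2, hay⟩
  have h2 : ((nb H a C').erase t).card + 1 = (nb H a C').card :=
    card_erase_add_one (mem_nb.2 ⟨ht, hat⟩)
  rw [← h1] at h2
  unfold dg at hC hC'
  omega

/-- Two distinct neighbours. -/
private lemma two_nb {A : Type*} [DecidableEq A] {H : SimpleGraph A} {C : Finset A} {t : A}
    (h : dg H t C = 2) : ∃ a b, a ≠ b ∧ a ∈ C ∧ b ∈ C ∧ H.Adj t a ∧ H.Adj t b := by
  unfold dg at h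
  obtain ⟨a, b, hab, he⟩ := card_eq_two.1 h
  have ha : a ∈ nb H t C := by rw [he]; simp
  have hb : b ∈ nb H t C := by rw [he]; simp
  rw [mem_nb] at ha hb
  exact ⟨a, b, hab, ha.1, hb.1, ha.2, hb.2⟩

private lemma mem_new {W T : Finset (V × ι)} {p v : V × ι} (hv : v ∈ W) (hvT : v ∉ T) :
    v ∈ insert p (W \ T) := mem_insert_of_mem (mem_sdiff.2 ⟨hv, hvT⟩)

private lemma old_of_new {W T C : Finset (V × ι)} {p : V × ι}
    (hC : C ∈ cyc (layers G ι) (insert p (W \ T))) {v : V × ι} (hv : v ∈ C.erase p) :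
    v ∈ W ∧ v ∉ T := by
  obtain ⟨hvp, hvC⟩ := mem_erase.1 hv
  have h1 := (mem_cyc.1 hC).1 hvC
  rcases mem_insert.1 h1 with h | h
  · exact absurd h hvp
  · exact mem_sdiff.1 h

private lemma dg_mem {W C : Finset (V × ι)} {v : V × ι}
    (hW : ∀ v ∈ W, dg (layers G ι) v W ≤ 2) (hC : C ∈ cyc (layers G ι) W)
    (hv : v ∈ C) : dg (layers G ι) v W = 2 := (dg_eq_two hW hC hv).2.1

/-- Marked points keep their degree. -/
theorem dg_keep {W T K : Finset (V × ι)} {p : V × ι} (hW : ∀ q ∈ W, dg (layers G ι) q W ≤ 2)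
    (hW' : ∀ q ∈ insert p (W \ T), dg (layers G ι) q (insert p (W \ T)) ≤ 2)
    (hF : ∀ t ∈ T, Free G K t) (hKW : K ⊆ W) (hK2 : ∀ w ∈ K, dg (layers G ι) w W = 2)
    {w : V × ι} (hw : w ∈ K) : dg (layers G ι) w (insert p (W \ T)) = 2 := by
  have hw' : w ∈ insert p (W \ T) := mem_new (hKW hw) fun h => (hF w h).1 hw
  have h1 : nb (layers G ι) w W ⊆ nb (layers G ι) w (insert p (W \ T)) := by
    intro y hy
    rw [mem_nb] at hy ⊢
    exact ⟨mem_new hy.1 fun h => (hF y h).2 w hw hy.2.symm, hy.2⟩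
  have h2 : dg (layers G ι) w W ≤ dg (layers G ι) w (insert p (W \ T)) := card_le_card h1
  have h3 := hW' w hw'
  have h4 := hK2 w hw
  omega

/-- A new odd cycle is disjoint from the old ones. -/
theorem Step.sep_cyc (hTri : NoTri G) {W T : Finset (V × ι)} {p : V × ι}
    (hW : ∀ q ∈ W, dg (layers G ι) q W ≤ 2)
    (hW' : ∀ q ∈ insert p (W \ T), dg (layers G ι) q (insert p (W \ T)) ≤ 2)
    (hs : Step G W T p) {C C' : Finset (V × ι)}
    (hC : C ∈ cyc (layers G ι) (insert p (W \ T))) (hpC : p ∈ C)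
    (hC' : C' ∈ cyc (layers G ι) W) : Disjoint C C' := by
  obtain ⟨hTv, hpW, hTp, hVac, _⟩ := hs
  rw [disjoint_left]
  intro v hvC hvC'
  obtain ⟨hCW, hCo⟩ := mem_cyc.1 hC
  obtain ⟨hCW', hCo'⟩ := mem_cyc.1 hC'
  have hpC' : p ∉ C' := fun h => hpW (hCW' h)
  have hvp : v ≠ p := by
    rintro rfl
    exact hpC' hvC'
  have h1 : C.erase p ∩ C' = C.erase p := by
    refine erase_eq_of_closed hCo hpC inter_subset_left
      ⟨v, mem_inter.2 ⟨mem_erase.2 ⟨hvp, hvC⟩, hvC'⟩⟩ fun y hy w hw hyw => ?_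
    exact mem_inter.2 ⟨hw, (dg_eq_two hW hC' (mem_inter.1 hy).2).2.2 w (old_of_new hC hw).1 hyw⟩
  have h1' : C.erase p ⊆ C' := by
    rw [← h1]
    exact inter_subset_right
  by_cases hT : ∃ t ∈ C', t ∈ T
  · obtain ⟨t, htC', htT⟩ := hT
    have hTu : ∀ w ∈ C'.erase t, w ∉ T := by
      intro w hw hwT
      obtain ⟨hwt, hwC'⟩ := mem_erase.1 hw
      exact hwt (hTv.2 C' hC' w hwC' t htC' hwT htT)
    have hvt : v ≠ t := by
      rintro rfl
      exact (old_of_new hC (mem_erase.2 ⟨hvp, hvC⟩)).2 htT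
    have h2 : C ∩ C'.erase t = C'.erase t := by
      refine erase_eq_of_closed hCo' htC' inter_subset_right
        ⟨v, mem_inter.2 ⟨hvC, mem_erase.2 ⟨hvt, hvC'⟩⟩⟩ fun y hy w hw hyw => ?_
      exact mem_inter.2 ⟨(dg_eq_two hW' hC (mem_inter.1 hy).1).2.2 w
        (mem_new (hCW' (mem_of_mem_erase hw)) (hTu w hw)) hyw, hw⟩
    have h3 : C.erase p = C'.erase t := by
      apply Subset.antisymm
      · intro w hw
        refine mem_erase.2 ⟨?_, h1' hw⟩
        rintro rfl
        exact (old_of_new hC hw).2 htT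
      · intro w hw
        have hwC : w ∈ C := by
          rw [← h2] at hw
          exact (mem_inter.1 hw).1
        refine mem_erase.2 ⟨?_, hwC⟩
        rintro rfl
        exact hpC' (mem_of_mem_erase hw)
    obtain ⟨a, b, _, ha, _, hta, _⟩ := two_nb (dg_eq_two hW hC' htC').1
    have haC : a ∈ C.erase p := by
      rw [h3]
      exact mem_erase.2 ⟨hta.ne', ha⟩
    have hap : (layers G ι).Adj a p :=
      adj_of_erase h3 (dg_eq_two hW' hC (mem_of_mem_erase haC)).1
        (dg_eq_two hW hC' ha).1 htC' hta.symm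
    rcases hTp t htT with h | h
    · exact noTri hTri a t p hta.symm h hap
    · have h4 : t.2 = p.2 := hta.1.trans hap.1
      have h5 : t = p := Prod.ext h h4
      exact hpW (h5 ▸ hCW' htC')
  · push Not at hT
    have h2 : C' ∈ cyc (layers G ι) (insert p (W \ T)) :=
      mem_cyc.2 ⟨fun w hw => mem_new (hCW' hw) (hT w hw), hCo'⟩
    have h3 : C = C' := cyc_disj hW' hC h2 hvC hvC'
    exact hpC' (h3 ▸ hpC)

/-- A broken odd cycle is disjoint from the odd cycles. -/
theorem ret_disj {W K P C : Finset (V × ι)} {x : V × ι} (hr : Ret G W K P x)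
    (hC : C ∈ cyc (layers G ι) W) {v : V × ι} (hv : v ∈ C) : v ∉ P := by
  intro hvP
  obtain ⟨hPW, hPc, hx, hodd, _⟩ := hr
  obtain ⟨hCW, hCo⟩ := mem_cyc.1 hC
  have h1 : C ∩ P = C := eq_of_closed hCo inter_subset_left ⟨v, mem_inter.2 ⟨hv, hvP⟩⟩
    (fun y hy z hz hyz => mem_inter.2
      ⟨hz, hPc y (mem_inter.1 hy).2 z (hCW hz) hyz⟩)
  have h2 : C ⊆ P := by
    rw [← h1]
    exact inter_subset_right
  refine hCo.1 (hodd.2 C ⟨h2.trans (subset_insert x P), fun h3 => ?_⟩)
  exact hx (hCW (h3 (mem_insert_self x P)))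

/-- A new odd cycle is disjoint from the broken ones. Proof as for `Step.sep_ret` in
`MP_7aba48_co_TF.Token`: otherwise `C.erase p = P`. If `x = p`: a marked point `c` over the vertex
of `p` is in `W \ T`, against `Vac (W \ T) p`; a marked neighbour `z` of `p` not in `P` is in `W'`,
hence in `C`, hence in `P`. If `x ≠ p` then `x ∉ W'`, and `Best.no_exchange` applies to `W'` and
`x`: the neighbours of `x` in `W'` are `p` or in `P` or marked, hence of degree two, and a point of
`W'` over the vertex of `x` is marked (if `c` is marked over it, `Valid W'`), or is `p`. -/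
theorem Step.sep_ret (hTri : NoTri G) {W T K P : Finset (V × ι)} {p x : V × ι}
    (hW : ∀ q ∈ W, dg (layers G ι) q W ≤ 2) (hB : Best G (insert p (W \ T)))
    (hs : Step G W T p) (hF : ∀ t ∈ T, Free G K t) (hKW : K ⊆ W)
    (hK2 : ∀ w ∈ K, dg (layers G ι) w W = 2) (hr : Ret G W K P x) {C : Finset (V × ι)}
    (hC : C ∈ cyc (layers G ι) (insert p (W \ T))) (hpC : p ∈ C) : Disjoint C P := by
  have hW' := hB.deg
  rw [disjoint_left]
  intro v hvC hvP
  have hPT : ∀ w ∈ P, w ∉ T := fun w hw hwT => by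
    obtain ⟨D, hD, hwD⟩ := hs.1.1 w hwT
    exact ret_disj hr hD hwD hw
  obtain ⟨hTv, hpW, hTp, hVac, _⟩ := hs
  obtain ⟨hPW, hPc, hx, hodd, hdeg, hxK, hlast⟩ := hr
  obtain ⟨hCW, hCo⟩ := mem_cyc.1 hC
  have hpP : p ∉ P := fun h => hpW (hPW h)
  have hxP : x ∉ P := fun h => hx (hPW h)
  have hKT : ∀ c ∈ K, c ∉ T := fun c hc h => (hF c h).1 hc
  have hvp : v ≠ p := by
    rintro rfl
    exact hpP hvP
  have h1 : C.erase p ∩ P = C.erase p := by
    refine erase_eq_of_closed hCo hpC inter_subset_left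
      ⟨v, mem_inter.2 ⟨mem_erase.2 ⟨hvp, hvC⟩, hvP⟩⟩ fun y hy w hw hyw => ?_
    exact mem_inter.2 ⟨hw, hPc y (mem_inter.1 hy).2 w (old_of_new hC hw).1 hyw⟩
  have hPe : (insert x P).erase x = P := erase_insert hxP
  have h2 : P ∩ C = (insert x P).erase x := by
    refine erase_eq_of_closed hodd (mem_insert_self x P) ?_ ⟨v, mem_inter.2 ⟨hvP, hvC⟩⟩
      fun y hy w hw hyw => ?_
    · rw [hPe]
      exact inter_subset_left
    · rw [hPe] at hw
      exact mem_inter.2 ⟨hw, (dg_eq_two hW' hC (mem_inter.1 hy).2).2.2 w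
        (mem_new (hPW hw) (hPT w hw)) hyw⟩
  rw [hPe] at h2
  have h3 : C.erase p = P := by
    apply Subset.antisymm
    · rw [← h1]
      exact inter_subset_right
    · intro w hw
      have hwC : w ∈ C := by
        rw [← h2] at hw
        exact (mem_inter.1 hw).2
      refine mem_erase.2 ⟨?_, hwC⟩
      rintro rfl
      exact hpP hw
  by_cases hxp : x = p
  · subst hxp
    rcases hlast with ⟨c, hc, hcx⟩ | ⟨_, z, hzK, hzP, hxz⟩
    · exact hVac c (mem_sdiff.2 ⟨hKW hc, hKT c hc⟩) hcx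
    · have hzC : z ∈ C := (dg_eq_two hW' hC hpC).2.2 z (mem_new (hKW hzK) (hKT z hzK)) hxz
      apply hzP
      rw [← h3]
      exact mem_erase.2 ⟨hxz.ne', hzC⟩
  · have hxW' : x ∉ insert p (W \ T) := by
      intro h
      rcases mem_insert.1 h with h | h
      · exact hxp h
      · exact hx (mem_sdiff.1 h).1
    refine hB.no_exchange hTri hxW' (fun r hr hxr => ?_) (fun q hq hqx => ?_)
    · rcases mem_insert.1 hr with h | h
      · rw [h]
        exact dg_mem hW' hC hpC
      · rcases hxK r (mem_sdiff.1 h).1 hxr with h6 | h6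
        · rw [← h3] at h6
          exact dg_mem hW' hC (mem_of_mem_erase h6)
        · exact dg_keep hW hW' hF hKW hK2 h6
    · rcases mem_insert.1 hq with h | h
      · rw [h]
        exact dg_mem hW' hC hpC
      · rcases hlast with ⟨c, hc, hcx⟩ | ⟨hV, _⟩
        · have h7 : c = q := hB.1 c (mem_new (hKW hc) (hKT c hc)) q hq (hcx.trans hqx.symm)
          rw [← h7]
          exact dg_keep hW hW' hF hKW hK2 hc
        · exact absurd hqx (hV q (mem_sdiff.1 h).1)

end Pool.Agent.Lib.MP_7aba48_co_TK
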