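import Pool.Agent.Lib.MP_7aba48_co_TK.Pot

/-!
# A step keeps optimal sets
-/

namespace Pool.Agent.Lib.MP_7aba48_co_TK

open Finset Pool.Agent.Lib.MP_7aba48_co_G5

universe u

variable {V : Type u} {ι : Type} [DecidableEq V] [DecidableEq ι] {G : SimpleGraph V}

/-- Two points of a transversal are not adjacent (adjacent points of `W` on odd cycles are on the
same odd cycle, `dg_eq_two`). -/
theorem Tv.indep {W T : Finset (V × ι)} (hW : ∀ p ∈ W, dg (layers G ι) p W ≤ 2)
    (hT : Tv G W T) : ∀ r ∈ T, ∀ s ∈ T, ¬ (layers G ι).Adj r s := by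
  intro r hr s hs hrs
  obtain ⟨C, hC, hrC⟩ := hT.1 r hr
  obtain ⟨D, hD, hsD⟩ := hT.1 s hs
  have hsC : s ∈ C := (dg_eq_two hW hC hrC).2.2 s ((mem_cyc.1 hD).1 hsD) hrs
  exact hrs.ne (hT.2 C hC r hrC s hsC hr hs)

omit [DecidableEq V] [DecidableEq ι] in
private theorem Tv.sub {W T : Finset (V × ι)} (hT : Tv G W T) : T ⊆ W := by
  intro t ht
  obtain ⟨C, hC, htC⟩ := hT.1 t ht
  exact (mem_cyc.1 hC).1 htC

private theorem dg_sdiff_le {W T : Finset (V × ι)}
    (hW : ∀ p ∈ W, dg (layers G ι) p W ≤ 2) :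
    ∀ p ∈ W \ T, dg (layers G ι) p (W \ T) ≤ 2 := by
  intro p hp
  refine le_trans (card_le_card fun y hy => ?_) (hW p (mem_sdiff.1 hp).1)
  rw [mem_nb] at hy ⊢
  exact ⟨(mem_sdiff.1 hy.1).1, hy.2⟩

/-- Induction on `T` with `cyc_erase_card`. -/
theorem cyc_sdiff_card {W T : Finset (V × ι)} (hW : ∀ p ∈ W, dg (layers G ι) p W ≤ 2)
    (hT : Tv G W T) :
    (cyc (layers G ι) (W \ T)).card + T.card = (cyc (layers G ι) W).card := by
  induction T using Finset.induction_on with
  | empty => simp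
  | insert t T₀ ht ih =>
    have h0 : Tv G W T₀ := ⟨fun r hr => hT.1 r (mem_insert_of_mem hr),
      fun C hC a ha b hb haT hbT =>
        hT.2 C hC a ha b hb (mem_insert_of_mem haT) (mem_insert_of_mem hbT)⟩
    have h1 := ih h0
    obtain ⟨C, hC, htC⟩ := hT.1 t (mem_insert_self t T₀)
    have hC' : C ∈ cyc (layers G ι) (W \ T₀) := by
      refine mem_cyc.2 ⟨fun x hx => mem_sdiff.2 ⟨(mem_cyc.1 hC).1 hx, fun hxT => ?_⟩,
        (mem_cyc.1 hC).2⟩
      have h2 := hT.2 C hC x hx t htC (mem_insert_of_mem hxT) (mem_insert_self t T₀)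
      exact ht (h2 ▸ hxT)
    have h3 := cyc_erase_card (dg_sdiff_le (T := T₀) hW) hC' htC
    have h4 : W \ insert t T₀ = (W \ T₀).erase t := by
      ext x
      simp only [mem_sdiff, mem_insert, mem_erase, not_or]
      tauto
    rw [h4, card_insert_of_notMem ht]
    omega

/-- `W \ T` is still of largest potential (`pot_sdiff`). -/
theorem Best.sdiff {W T : Finset (V × ι)} (h : Best G W) (hT : Tv G W T) :
    Best G (W \ T) := by
  refine ⟨fun p hp q hq hpq => h.1 p (mem_sdiff.1 hp).1 q (mem_sdiff.1 hq).1 hpq,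
    fun W' hW' => ?_⟩
  rw [pot_sdiff hT.sub (hT.indep h.deg) fun r hr => ?_]
  · exact h.2 W' hW'
  · obtain ⟨C, hC, hrC⟩ := hT.1 r hr
    exact (dg_eq_two h.deg hC hrC).2.1

/-- The new set is optimal and the new point is on an odd cycle. Proof: `W' = insert p (W \ T)` is
valid and `pot W' = pot (W \ T) + 4 - 2 * 2 = pot W`, so `Best G W'`. `|W'| = |W| - |T| + 1`, and
the number of odd cycles of `W \ T` is that of `W` minus `|T|` (`cyc_sdiff_card`). If `p` is on no
odd cycle of `W'` then `cyc_insert_card_le` gives `pts W' ≥ pts W + 1`, a contradiction; so it is,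
and `cyc_insert_card` gives `pts W' ≥ pts W`. -/
theorem Step.opt {W T : Finset (V × ι)} {p : V × ι} (h : Opt G W) (hs : Step G W T p) :
    Opt G (insert p (W \ T)) ∧ ∃ C ∈ cyc (layers G ι) (insert p (W \ T)), p ∈ C := by
  obtain ⟨hT, hp, -, hvac, h2⟩ := hs
  have hB := h.1
  have hpn : p ∉ W \ T := fun hp' => hp (mem_sdiff.1 hp').1
  have hS := hB.sdiff hT
  have hpot : pot G (insert p (W \ T)) = pot G (W \ T) := by
    rw [pot_insert hpn, h2]
    push_cast
    ring
  have hB' : Best G (insert p (W \ T)) := by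
    refine ⟨fun a ha b hb hab => ?_, fun W' hW' => ?_⟩
    · rcases mem_insert.1 ha with ha' | ha'
      · rcases mem_insert.1 hb with hb' | hb'
        · rw [ha', hb']
        · exact absurd (hab.symm.trans (congrArg Prod.fst ha')) (hvac b hb')
      · rcases mem_insert.1 hb with hb' | hb'
        · exact absurd (hab.trans (congrArg Prod.fst hb')) (hvac a ha')
        · exact hS.1 a ha' b hb' hab
    · rw [hpot]
      exact hS.2 W' hW'
  have hcT := cyc_sdiff_card hB.deg hT
  have hcard : (insert p (W \ T)).card + T.card = W.card + 1 := by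
    rw [card_insert_of_notMem hpn, card_sdiff_of_subset hT.sub]
    have := card_le_card hT.sub
    omega
  have hle := h.2 _ hB'
  unfold pts at hle
  have hex : ∃ C ∈ cyc (layers G ι) (insert p (W \ T)), p ∈ C := by
    by_contra hcon
    push Not at hcon
    have h3 := cyc_insert_card_le hpn hcon
    omega
  refine ⟨⟨hB', fun W' hW' => ?_⟩, hex⟩
  have h4 := cyc_insert_card hpn hB'.deg
  have h5 := h.2 W' hW'
  unfold pts at h5 ⊢
  omega

end Pool.Agent.Lib.MP_7aba48_co_TK
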